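import Pool.Agent.Y893.Ch.Gen

set_option autoImplicit false

/-!
# MP_765488_mp: finitely many equilibria, with an explicit uniform bound

Stronger form of the earlier result `MP_765488_mp/FiniteEquilibria` of this repository, which had
only the finiteness for positive charges without an external field: every configuration of `N`
positive point charges in `ℝ ^ d` in any uniform external field has at most
`(2 * max 4 (d + 1)) ^ (N + d)` points of equilibrium (`8 ^ (N + 3)` in space), together with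
versions for charges of arbitrary signs and for other central forces.
-/

namespace Pool.Agent.Results.MP_765488_mp.ExplicitBound

open scoped BigOperators
open Pool.Agent.Y893.Ch

/-- The potential of the point charges `q i` at the points `a i` of `ℝ ^ d`: the sum of the
`q i / |x - a i| ^ (d - 2)` for `d ≥ 3`, and minus the sum of the `q i * log |x - a i|`
for `d = 2`. -/
noncomputable def potential {d N : ℕ} (a : Fin N → EuclideanSpace ℝ (Fin d)) (q : Fin N → ℝ)
    (x : EuclideanSpace ℝ (Fin d)) : ℝ :=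
  if d = 2 then -∑ i, q i * Real.log ‖x - a i‖ else ∑ i, q i / ‖x - a i‖ ^ (d - 2)

/-- The electric field of the charges, minus the gradient of the potential. -/
noncomputable def electricField {d N : ℕ} (a : Fin N → EuclideanSpace ℝ (Fin d)) (q : Fin N → ℝ)
    (x : EuclideanSpace ℝ (Fin d)) : EuclideanSpace ℝ (Fin d) :=
  -gradient (potential a q) x

/-- The points of equilibrium in the presence of the uniform external field `e`: the points distinct
from all charges at which the total field is zero. The case `e = 0` is the one of the problem. -/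
def equilibria {d N : ℕ} (a : Fin N → EuclideanSpace ℝ (Fin d)) (q : Fin N → ℝ)
    (e : EuclideanSpace ℝ (Fin d)) : Set (EuclideanSpace ℝ (Fin d)) :=
  {x | (∀ i, x ≠ a i) ∧ electricField a q x + e = 0}

/-- The factor `∑ l, c l * r ^ (-l / D)` of a central force. -/
noncomputable def law {M : ℕ} (D : ℕ) (c : Fin (M + 1) → ℝ) (r : ℝ) : ℝ :=
  ∑ l : Fin (M + 1), c l * r ^ (-(((l : ℕ) : ℝ) / D))

theorem hasFDerivAt_dist {d : ℕ} (a x : EuclideanSpace ℝ (Fin d)) (h : x ≠ a) :
    HasFDerivAt (fun y : EuclideanSpace ℝ (Fin d) => ‖y - a‖)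
      (‖x - a‖⁻¹ • innerSL ℝ (x - a)) x := by
  have h0 : ‖x - a‖ ≠ 0 := norm_ne_zero_iff.mpr (sub_ne_zero.mpr h)
  have h1 : HasFDerivAt (fun y : EuclideanSpace ℝ (Fin d) => y - a)
      (ContinuousLinearMap.id ℝ _) x := (hasFDerivAt_id x).sub_const a
  have h2 := h1.norm_sq
  have h3 := h2.sqrt (pow_ne_zero 2 h0)
  have h4 : (fun y : EuclideanSpace ℝ (Fin d) => √(‖y - a‖ ^ 2)) = fun y => ‖y - a‖ := by
    funext y
    exact Real.sqrt_sq (norm_nonneg _)
  rw [h4] at h3
  refine h3.congr_fderiv ?_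
  ext y
  simp only [Real.sqrt_sq (norm_nonneg _)]
  simp
  field_simp

theorem hasFDerivAt_log {d : ℕ} (a x : EuclideanSpace ℝ (Fin d)) (h : x ≠ a) (q : ℝ) :
    HasFDerivAt (fun y : EuclideanSpace ℝ (Fin d) => q * Real.log ‖y - a‖)
      ((q * (‖x - a‖⁻¹) ^ 2) • innerSL ℝ (x - a)) x := by
  have h0 : ‖x - a‖ ≠ 0 := norm_ne_zero_iff.mpr (sub_ne_zero.mpr h)
  have h1 := ((hasFDerivAt_dist a x h).log h0).const_mul q
  refine h1.congr_fderiv ?_
  ext y
  simp
  ring

theorem hasFDerivAt_pow {d : ℕ} (a x : EuclideanSpace ℝ (Fin d)) (h : x ≠ a) (q : ℝ) (m : ℕ) :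
    HasFDerivAt (fun y : EuclideanSpace ℝ (Fin d) => q / ‖y - a‖ ^ (m + 1))
      ((-(m + 1 : ℝ) * (q * (‖x - a‖⁻¹) ^ (m + 3))) • innerSL ℝ (x - a)) x := by
  have h0 : ‖x - a‖ ≠ 0 := norm_ne_zero_iff.mpr (sub_ne_zero.mpr h)
  have h1 : HasDerivAt (fun r : ℝ => q / r ^ (m + 1))
      (-(m + 1 : ℝ) * (q * (‖x - a‖⁻¹) ^ (m + 2))) ‖x - a‖ := by
    have h2 := ((hasDerivAt_pow (m + 1) ‖x - a‖).fun_inv (pow_ne_zero _ h0)).const_mul q
    have h3 : (fun r : ℝ => q / r ^ (m + 1)) = fun r => q * (r ^ (m + 1))⁻¹ := by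
      funext r
      exact div_eq_mul_inv _ _
    rw [h3]
    have h4 : -(m + 1 : ℝ) * (q * (‖x - a‖⁻¹) ^ (m + 2)) =
        q * (-(((m + 1 : ℕ) : ℝ) * ‖x - a‖ ^ (m + 1 - 1)) / (‖x - a‖ ^ (m + 1)) ^ 2) := by
      rw [Nat.add_sub_cancel, inv_pow, eq_comm, mul_div_assoc', div_eq_iff (by positivity)]
      push_cast
      field_simp
      try ring
    rw [h4]
    exact h2
  have h2 := h1.comp_hasFDerivAt x (hasFDerivAt_dist a x h)
  refine h2.congr_fderiv ?_
  ext y
  simp
  ring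

/-- the constant relating the field with the sum of the `q i * |x - a i| ^ (-d) * (x - a i)` -/
noncomputable def kap (d : ℕ) : ℝ := if d = 2 then 1 else d - 2

theorem kap_pos {d : ℕ} (hd : 2 ≤ d) : 0 < kap d := by
  unfold kap
  split_ifs with h
  · exact one_pos
  · have : 3 ≤ d := by omega
    have h2 : (3 : ℝ) ≤ d := by exact_mod_cast this
    linarith

theorem field_eq {d N : ℕ} (hd : 2 ≤ d) (a : Fin N → EuclideanSpace ℝ (Fin d)) (q : Fin N → ℝ)
    (x : EuclideanSpace ℝ (Fin d)) (hne : ∀ i, x ≠ a i) :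
    electricField a q x = kap d • ∑ i, (q i * (‖x - a i‖⁻¹) ^ d) • (x - a i) := by
  have hF : HasFDerivAt (potential a q)
      (∑ i, (-kap d * (q i * (‖x - a i‖⁻¹) ^ d)) • innerSL ℝ (x - a i)) x := by
    rcases Nat.lt_or_ge 2 d with h | h
    · obtain ⟨m, rfl⟩ : ∃ m, d = m + 3 := ⟨d - 3, by omega⟩
      have hV : potential a q = fun y => ∑ i, q i / ‖y - a i‖ ^ (m + 1) := by
        funext y
        unfold potential
        rw [if_neg (by omega)]
        rfl
      have hk : -kap (m + 3) = -(m + 1 : ℝ) := by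
        unfold kap
        rw [if_neg (by omega)]
        push_cast
        ring
      rw [hV, hk]
      exact HasFDerivAt.fun_sum fun i _ => hasFDerivAt_pow (a i) x (hne i) (q i) m
    · obtain rfl : d = 2 := le_antisymm h hd
      have hV : potential a q = fun y => -∑ i, q i * Real.log ‖y - a i‖ := by
        funext y
        unfold potential
        rw [if_pos rfl]
      rw [hV]
      have := (HasFDerivAt.fun_sum (u := Finset.univ)
        fun i _ => hasFDerivAt_log (a i) x (hne i) (q i)).fun_neg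
      refine this.congr_fderiv ?_
      rw [← Finset.sum_neg_distrib]
      refine Finset.sum_congr rfl fun i _ => ?_
      simp [kap]
  unfold electricField
  have hG : HasGradientAt (potential a q)
      (-(kap d • ∑ i, (q i * (‖x - a i‖⁻¹) ^ d) • (x - a i))) x := by
    rw [hasGradientAt_iff_hasFDerivAt]
    refine hF.congr_fderiv ?_
    ext y
    simp [Finset.mul_sum, ← mul_assoc]
  rw [hG.gradient, neg_neg]

/-- the coefficients of the Newtonian law -/
def newt (d : ℕ) {N : ℕ} (q : Fin N → ℝ) (i : Fin N) (l : Fin (d + 1)) : ℝ :=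
  if (l : ℕ) = d then q i else 0

theorem pol_newt (d : ℕ) {N : ℕ} (q : Fin N → ℝ) (i : Fin N) (t : ℝ) :
    pol (newt d q i) t = q i * t ^ d := by
  unfold pol
  rw [Finset.sum_eq_single (Fin.last d)]
  · simp [newt]
  · intro l _ hl
    have : (l : ℕ) ≠ d := fun h => hl (Fin.ext h)
    simp [newt, this]
  · intro h
    exact absurd (Finset.mem_univ _) h

theorem newtonian {d N : ℕ} (hd : 2 ≤ d) (a : Fin N → EuclideanSpace ℝ (Fin d)) (q : Fin N → ℝ)
    (e : EuclideanSpace ℝ (Fin d)) (ha : Function.Injective a) (hq : ∀ i, q i ≠ 0) :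
    {x ∈ equilibria a q e | ∑ i, q i * (‖x - a i‖⁻¹) ^ d ≠ 0}.Finite ∧
      {x ∈ equilibria a q e | ∑ i, q i * (‖x - a i‖⁻¹) ^ d ≠ 0}.ncard ≤
        (2 * max 4 (d + 1)) ^ (N + d) := by
  obtain ⟨h1, h2⟩ := general (D := 1) le_rfl a (newt d q) ha
    (fun i => ⟨Fin.last d, by rw [Fin.val_last]; omega, by simpa [newt] using hq i⟩)
    (-((kap d)⁻¹ • e))
  have hsub : {x ∈ equilibria a q e | ∑ i, q i * (‖x - a i‖⁻¹) ^ d ≠ 0} ⊆
      {x | ∃ t, Sol 1 a (newt d q) (-((kap d)⁻¹ • e)) t x} := by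
    rintro x ⟨⟨hne, hx⟩, hS⟩
    refine ⟨fun i => ‖x - a i‖⁻¹, fun i => inv_pos.mpr
      (norm_pos_iff.mpr (sub_ne_zero.mpr (hne i))), fun i => by simp, fun k => ?_, ?_⟩
    · rw [field_eq hd a q x hne] at hx
      have h3 : ∑ i, (q i * (‖x - a i‖⁻¹) ^ d) • (x - a i) = -((kap d)⁻¹ • e) := by
        rw [← smul_neg, eq_inv_smul_iff₀ (kap_pos hd).ne']
        exact eq_neg_of_add_eq_zero_left hx
      rw [← h3]
      simp [pol_newt]
    · simpa [pol_newt] using hS
  exact ⟨h1.subset hsub, (Set.ncard_le_ncard hsub h1).trans h2⟩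

theorem law_eq {M D : ℕ} (c : Fin (M + 1) → ℝ) {r : ℝ} (hr : 0 < r) :
    law D c r = pol c (r ^ (-(1 / (D : ℝ)))) := by
  unfold law pol
  refine Finset.sum_congr rfl fun l _ => ?_
  rw [← Real.rpow_natCast, ← Real.rpow_mul hr.le]
  congr 2
  ring

theorem root_eq {D : ℕ} (hD : 1 ≤ D) {r : ℝ} (hr : 0 < r) :
    ((r ^ (-(1 / (D : ℝ))))⁻¹) ^ D = r := by
  have hD' : (D : ℝ) ≠ 0 := by
    have : (0 : ℕ) < D := by omega
    exact_mod_cast this.ne'
  rw [← Real.rpow_neg hr.le, neg_neg, ← Real.rpow_natCast, ← Real.rpow_mul hr.le,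
    one_div, inv_mul_cancel₀ hD', Real.rpow_one]

theorem central {d N M D : ℕ} (hD : 1 ≤ D) (a : Fin N → EuclideanSpace ℝ (Fin d))
    (c : Fin N → Fin (M + 1) → ℝ) (e : EuclideanSpace ℝ (Fin d)) (ha : Function.Injective a)
    (hc : ∀ i, ∃ m : Fin (M + 1), D < (m : ℕ) ∧ c i m ≠ 0) :
    {x : EuclideanSpace ℝ (Fin d) | (∀ i, x ≠ a i) ∧
        ∑ i, law D (c i) ‖x - a i‖ • (x - a i) + e = 0 ∧
        ∑ i, law D (c i) ‖x - a i‖ ≠ 0}.Finite ∧
      {x : EuclideanSpace ℝ (Fin d) | (∀ i, x ≠ a i) ∧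
        ∑ i, law D (c i) ‖x - a i‖ • (x - a i) + e = 0 ∧
        ∑ i, law D (c i) ‖x - a i‖ ≠ 0}.ncard ≤
        (2 * max (2 * D + 2) (M + 1)) ^ (N + d) := by
  obtain ⟨h1, h2⟩ := general hD a c ha hc (-e)
  have hsub : {x : EuclideanSpace ℝ (Fin d) | (∀ i, x ≠ a i) ∧
        ∑ i, law D (c i) ‖x - a i‖ • (x - a i) + e = 0 ∧
        ∑ i, law D (c i) ‖x - a i‖ ≠ 0} ⊆ {x | ∃ t, Sol D a c (-e) t x} := by
    rintro x ⟨hne, hx, hS⟩
    have hpos : ∀ i, 0 < ‖x - a i‖ := fun i => norm_pos_iff.mpr (sub_ne_zero.mpr (hne i))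
    have hl : ∀ i, law D (c i) ‖x - a i‖ = pol (c i) (‖x - a i‖ ^ (-(1 / (D : ℝ)))) :=
      fun i => law_eq (c i) (hpos i)
    simp only [hl] at hx hS
    refine ⟨fun i => ‖x - a i‖ ^ (-(1 / (D : ℝ))), fun i => Real.rpow_pos_of_pos (hpos i) _,
      fun i => root_eq hD (hpos i), fun k => ?_, hS⟩
    rw [← eq_neg_of_add_eq_zero_left hx]
    simp
  exact ⟨h1.subset hsub, (Set.ncard_le_ncard hsub h1).trans h2⟩

theorem inverse_first_power (d : ℕ) (hd : 1 ≤ d) :
    ∃ a : Fin 2 → EuclideanSpace ℝ (Fin d), Function.Injective a ∧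
      {x : EuclideanSpace ℝ (Fin d) | (∀ i, x ≠ a i) ∧
        ∑ i, ‖x - a i‖⁻¹ • (x - a i) = 0 ∧ ∑ i, ‖x - a i‖⁻¹ ≠ 0}.Infinite := by
  classical
  set u : EuclideanSpace ℝ (Fin d) := EuclideanSpace.single ⟨0, by omega⟩ (1 : ℝ) with hu
  have hu1 : ‖u‖ = 1 := by simp [hu]
  have hu0 : u ≠ 0 := by
    intro h
    rw [h, norm_zero] at hu1
    exact zero_ne_one hu1
  refine ⟨![0, u], ?_, ?_⟩
  · intro i j hij
    fin_cases i <;> fin_cases j
    · rfl
    · exact absurd hij.symm (by simpa using hu0)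
    · exact absurd hij (by simpa using hu0)
    · rfl
  · have hinj : Set.InjOn (fun s : ℝ => s • u) (Set.Ioo (0 : ℝ) 1) := by
      intro s _ s' _ h
      exact smul_left_injective ℝ hu0 h
    refine ((Set.Ioo_infinite (zero_lt_one (α := ℝ))).image hinj).mono ?_
    rintro x ⟨s, ⟨hs0, hs1⟩, rfl⟩
    have h1 : ‖s • u‖ = s := by rw [norm_smul, hu1, mul_one, Real.norm_of_nonneg hs0.le]
    have h2 : s • u - u = -((1 - s) • u) := by rw [sub_smul, one_smul, neg_sub]
    have h3 : ‖s • u - u‖ = 1 - s := by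
      rw [h2, norm_neg, norm_smul, hu1, mul_one, Real.norm_of_nonneg (by linarith)]
    have h4 : 0 < 1 - s := by linarith
    refine ⟨fun i => ?_, ?_, ?_⟩
    · fin_cases i
      · simpa using ⟨hs0.ne', hu0⟩
      · intro h
        have : s • u - u = 0 := by
          simpa using sub_eq_zero.mpr h
        rw [this, norm_zero] at h3
        linarith
    · simp only [Fin.sum_univ_two, Matrix.cons_val_zero, Matrix.cons_val_one, sub_zero]
      rw [h1, h3, h2, smul_smul, inv_mul_cancel₀ hs0.ne', smul_neg, smul_smul,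
        inv_mul_cancel₀ h4.ne', one_smul, add_neg_cancel]
    · simp only [Fin.sum_univ_two, Matrix.cons_val_zero, Matrix.cons_val_one, sub_zero]
      rw [h1, h3]
      positivity

/-- (1) For all `d ≥ 2`, `N ≥ 1`, every configuration of `N` positive point charges in `ℝ ^ d`, in an
arbitrary uniform external field `e` (`e = 0` in the problem), has at most
`(2 * max 4 (d + 1)) ^ (N + d)` points of equilibrium; in particular their number is finite.
(2) For nonzero charges of arbitrary signs the same bound holds for the number of the equilibria `x`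
with `∑ q i * |x - a i| ^ (-d) ≠ 0`, and (3) for the number of all equilibria if `e = 0` and the
positions of the charges are affinely independent.
(4) The same for arbitrary central forces of the form `(∑ l, c i l * r ^ (-l / D)) • (x - a i)`
whose highest exponent `m / D` is greater than `1`. (5) For the exponent `1` this fails. -/
theorem result :
    (∀ d N : ℕ, 2 ≤ d → 1 ≤ N →
      ∀ (a : Fin N → EuclideanSpace ℝ (Fin d)) (q : Fin N → ℝ) (e : EuclideanSpace ℝ (Fin d)),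
        Function.Injective a → (∀ i, 0 < q i) →
        (equilibria a q e).Finite ∧
          (equilibria a q e).ncard ≤ (2 * max 4 (d + 1)) ^ (N + d)) ∧
    (∀ d N : ℕ, 2 ≤ d →
      ∀ (a : Fin N → EuclideanSpace ℝ (Fin d)) (q : Fin N → ℝ) (e : EuclideanSpace ℝ (Fin d)),
        Function.Injective a → (∀ i, q i ≠ 0) →
        {x ∈ equilibria a q e | ∑ i, q i * (‖x - a i‖⁻¹) ^ d ≠ 0}.Finite ∧
          {x ∈ equilibria a q e | ∑ i, q i * (‖x - a i‖⁻¹) ^ d ≠ 0}.ncard ≤
            (2 * max 4 (d + 1)) ^ (N + d)) ∧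
    (∀ d N : ℕ, 2 ≤ d → 1 ≤ N →
      ∀ (a : Fin N → EuclideanSpace ℝ (Fin d)) (q : Fin N → ℝ),
        AffineIndependent ℝ a → (∀ i, q i ≠ 0) →
        (equilibria a q 0).Finite ∧
          (equilibria a q 0).ncard ≤ (2 * max 4 (d + 1)) ^ (N + d)) ∧
    (∀ d N M D : ℕ, 1 ≤ D →
      ∀ (a : Fin N → EuclideanSpace ℝ (Fin d)) (c : Fin N → Fin (M + 1) → ℝ)
        (e : EuclideanSpace ℝ (Fin d)), Function.Injective a →
        (∀ i, ∃ m : Fin (M + 1), D < (m : ℕ) ∧ c i m ≠ 0) →
        {x : EuclideanSpace ℝ (Fin d) | (∀ i, x ≠ a i) ∧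
            ∑ i, law D (c i) ‖x - a i‖ • (x - a i) + e = 0 ∧
            ∑ i, law D (c i) ‖x - a i‖ ≠ 0}.Finite ∧
          {x : EuclideanSpace ℝ (Fin d) | (∀ i, x ≠ a i) ∧
            ∑ i, law D (c i) ‖x - a i‖ • (x - a i) + e = 0 ∧
            ∑ i, law D (c i) ‖x - a i‖ ≠ 0}.ncard ≤
            (2 * max (2 * D + 2) (M + 1)) ^ (N + d)) ∧
    (∀ d : ℕ, 1 ≤ d → ∃ a : Fin 2 → EuclideanSpace ℝ (Fin d), Function.Injective a ∧
      {x : EuclideanSpace ℝ (Fin d) | (∀ i, x ≠ a i) ∧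
        ∑ i, ‖x - a i‖⁻¹ • (x - a i) = 0 ∧ ∑ i, ‖x - a i‖⁻¹ ≠ 0}.Infinite) := by
  refine ⟨?_, fun d N hd a q e ha hq => newtonian hd a q e ha hq, ?_,
    fun d N M D hD a c e ha hc => central hD a c e ha hc, fun d hd => inverse_first_power d hd⟩
  · intro d N hd hN a q e ha hq
    have h := newtonian hd a q e ha fun i => (hq i).ne'
    have heq : {x ∈ equilibria a q e | ∑ i, q i * (‖x - a i‖⁻¹) ^ d ≠ 0} = equilibria a q e := by
      ext x
      refine ⟨fun hx => hx.1, fun hx => ⟨hx, ?_⟩⟩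
      have : Nonempty (Fin N) := ⟨⟨0, hN⟩⟩
      refine (Finset.sum_pos (fun i _ => ?_) Finset.univ_nonempty).ne'
      exact mul_pos (hq i) (pow_pos (inv_pos.mpr
        (norm_pos_iff.mpr (sub_ne_zero.mpr (hx.1 i)))) d)
    rw [heq] at h
    exact h
  · intro d N hd hN a q ha hq
    have h := newtonian hd a q 0 ha.injective hq
    have heq : {x ∈ equilibria a q 0 | ∑ i, q i * (‖x - a i‖⁻¹) ^ d ≠ 0} = equilibria a q 0 := by
      ext x
      refine ⟨fun hx => hx.1, fun hx => ⟨hx, fun hS => ?_⟩⟩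
      obtain ⟨hne, hx⟩ := hx
      rw [field_eq hd a q x hne, add_zero, smul_eq_zero_iff_right (kap_pos hd).ne'] at hx
      have h1 : ∑ i, (q i * (‖x - a i‖⁻¹) ^ d) • a i = 0 := by
        have h2 : ∑ i, (q i * (‖x - a i‖⁻¹) ^ d) • (x - a i) =
            (∑ i, q i * (‖x - a i‖⁻¹) ^ d) • x - ∑ i, (q i * (‖x - a i‖⁻¹) ^ d) • a i := by
          rw [Finset.sum_smul, ← Finset.sum_sub_distrib]
          exact Finset.sum_congr rfl fun i _ => smul_sub _ _ _
        rw [hx, hS, zero_smul, zero_sub, zero_eq_neg] at h2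
        exact h2
      have h3 := (affineIndependent_iff.mp ha) Finset.univ
        (fun i => q i * (‖x - a i‖⁻¹) ^ d) hS h1 ⟨0, hN⟩ (Finset.mem_univ _)
      exact mul_ne_zero (hq _) (pow_ne_zero _ (inv_ne_zero
        (norm_ne_zero_iff.mpr (sub_ne_zero.mpr (hne _))))) h3
    rw [heq] at h
    exact h

end Pool.Agent.Results.MP_765488_mp.ExplicitBound
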